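import Mathlib
import Pool.Agent.TH256.HT.SMain

/-!
# A Haagerup II₁ factor existentially embedded in a II₁ factor with property (T)

The factors are group factors `N = L(H)`, `M = L(G)` of countable groups `H ≤ G` with infinite
conjugacy classes.  Let `D` be the ring of the operators `scalar + finite matrix` on the vector space
over the field with 11 elements with basis indexed by the integers, and let `R` be the ring generated
by the scalars, the shift, its inverse and one matrix unit.  Then `D ⊆ R`; the ring `D` is locally
finite, and `R` embeds in the ultrapowers of `D` so that the embedding is the diagonal one on `D`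
(replace the shift by the cyclic permutations of `[-n, n]`).  The groups are the elementary groups
`H = EL₃(D)` and `G = EL₃(R)`.  The group `H` is locally finite, so `L(H)` has the Haagerup property
(use the conditional expectations onto the algebras of the finite subgroups); the group `G` has
property (T) because `R` is a finitely generated ring; and the embedding of `R` in the ultrapower of
`D` gives an embedding of `G` in the ultrapower of `H`, hence one of `L(G)` in the ultrapower of
`L(H)`, which is the diagonal embedding on `L(H)`.
-/

set_option autoImplicit false

open Pool.Agent.H504R3.S (Str)
open Pool.Agent.TH256.HT.S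

namespace Pool.Agent.Results.MP_02fda4_an.HaagerupInKazhdan

/-- There are separable II₁ factors `N`, `M` and a trace preserving embedding `ι : N → M` such that
`N` has the Haagerup property, `M` has property (T), and `ι` is existential for every nonprincipal
ultrafilter `U` on `ℕ`. -/
theorem result : ∃ (N M : Str) (ι : N.carrier → M.carrier),
    N.IsIIOneFactor ∧ N.IsSeparable ∧ M.IsIIOneFactor ∧ M.IsSeparable ∧
    Str.IsHom N M ι ∧ (∀ x, M.tr (ι x) = N.tr x) ∧ HasHaagerupProperty N ∧ HasPropertyT M ∧
    ∀ U : Ultrafilter ℕ, (∀ n, {n} ∉ U) → IsExistential U N M ι :=
  Pool.Agent.TH256.HT.main_str

end Pool.Agent.Results.MP_02fda4_an.HaagerupInKazhdan
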